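import Mathlib

/-!
# Subgroups whose image contains the alternating group
-/

set_option autoImplicit false

namespace Pool.Agent.H669R4

open MulAction

section

variable {R : Type} [Fintype R] [DecidableEq R] {G : Type} [Group G] (φ : G →* Equiv.Perm R)

/-- A point whose orbit under `U` is small: its stabilizer in `U` still covers the alternating
group. -/
theorem alt_le_of_orbit (h5 : 5 ≤ Nat.card R) {Ω : Type} [MulAction G Ω] (U : Subgroup G) (z : Ω)
    (s : Finset Ω) (hs : s.card < Nat.card R) (horb : ∀ u ∈ U, u • z ∈ s)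
    (hU : alternatingGroup R ≤ U.map φ) :
    alternatingGroup R ≤ (U ⊓ stabilizer G z).map φ := by
  classical
  set V := U ⊓ stabilizer G z with hV
  let W : Subgroup (alternatingGroup R) := (V.map φ).subgroupOf (alternatingGroup R)
  have hch : ∀ a : alternatingGroup R, ∃ g ∈ U, φ g = (a : Equiv.Perm R) := fun a => by
    obtain ⟨g, hg, hga⟩ := hU a.2
    exact ⟨g, hg, hga⟩
  choose u huU hua using hch
  have hcard : Nat.card (alternatingGroup R ⧸ W) ≤ s.card := by
    let f : alternatingGroup R ⧸ W → s := fun q => ⟨u q.out • z, horb _ (huU _)⟩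
    have hinj : Function.Injective f := by
      intro q q' h
      have h1 : u q.out • z = u q'.out • z := congrArg Subtype.val h
      have h2 : (u q.out)⁻¹ * u q'.out ∈ V := by
        refine Subgroup.mem_inf.2 ⟨U.mul_mem (U.inv_mem (huU _)) (huU _), ?_⟩
        rw [mem_stabilizer_iff, mul_smul, ← h1, inv_smul_smul]
      have h3 : (q.out)⁻¹ * q'.out ∈ W := by
        rw [Subgroup.mem_subgroupOf]
        refine ⟨_, h2, ?_⟩
        rw [map_mul, map_inv, hua, hua]
        simp
      rw [← QuotientGroup.out_eq' q, ← QuotientGroup.out_eq' q']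
      exact QuotientGroup.eq.2 h3
    have h1 := Nat.card_le_card_of_injective f hinj
    rwa [Nat.card_eq_fintype_card (α := s), Fintype.card_coe] at h1
  have hsimple := alternatingGroup.isSimpleGroup h5
  have hfin : Finite (alternatingGroup R ⧸ W) := inferInstance
  rcases hsimple.eq_bot_or_eq_top_of_normal
    (toPermHom (alternatingGroup R) (alternatingGroup R ⧸ W)).ker inferInstance with h | h
  · exfalso
    have hinj := (MonoidHom.ker_eq_bot_iff _).1 h
    have h1 := Nat.card_le_card_of_injective _ hinj
    rw [Nat.card_perm] at h1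
    have hnt : Nontrivial R := by
      rw [← Fintype.one_lt_card_iff_nontrivial, ← Nat.card_eq_fintype_card]
      omega
    have h2 := two_mul_nat_card_alternatingGroup (α := R)
    rw [Nat.card_perm] at h2
    obtain ⟨m, hm⟩ : ∃ m, Nat.card R = m + 1 := ⟨Nat.card R - 1, by omega⟩
    have h3 : (Nat.card (alternatingGroup R ⧸ W)).factorial ≤ m.factorial :=
      Nat.factorial_le (by omega)
    rw [hm, Nat.factorial_succ] at h2
    have h4 := Nat.factorial_pos m
    nlinarith
  · intro a ha
    have h1 : (⟨a, ha⟩ : alternatingGroup R) ∈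
        (toPermHom (alternatingGroup R) (alternatingGroup R ⧸ W)).ker := by
      rw [h]; trivial
    have h2 : (⟨a, ha⟩ : alternatingGroup R) • ((1 : alternatingGroup R) :
        alternatingGroup R ⧸ W) = ((1 : alternatingGroup R) : alternatingGroup R ⧸ W) := by
      have := congrArg (fun σ : Equiv.Perm (alternatingGroup R ⧸ W) =>
        σ ((1 : alternatingGroup R) : alternatingGroup R ⧸ W)) (MonoidHom.mem_ker.1 h1)
      exact this
    have h3 : (((⟨a, ha⟩ : alternatingGroup R) * 1 : alternatingGroup R) :
        alternatingGroup R ⧸ W) = ((1 : alternatingGroup R) : alternatingGroup R ⧸ W) := h2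
    rw [eq_comm, QuotientGroup.eq] at h3
    simpa [W, Subgroup.mem_subgroupOf] using h3

/-- abelian steps -/
theorem alt_le_of_comm (h5 : 5 ≤ Nat.card R) (U V : Subgroup G)
    (hc : ∀ u ∈ U, ∀ v ∈ U, u * v * u⁻¹ * v⁻¹ ∈ V) (hU : alternatingGroup R ≤ U.map φ) :
    alternatingGroup R ≤ V.map φ := by
  rw [← commutator_alternatingGroup_eq_self h5]
  calc ⁅alternatingGroup R, alternatingGroup R⁆ ≤ ⁅U.map φ, U.map φ⁆ :=
        Subgroup.commutator_mono hU hU
    _ = ⁅U, U⁆.map φ := (Subgroup.map_commutator U U φ).symm
    _ ≤ V.map φ := Subgroup.map_mono (Subgroup.commutator_le.2 fun u hu v hv => by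
        rw [commutatorElement_def]; exact hc u hu v hv)

end

end Pool.Agent.H669R4
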