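import Mathlib
import Pool.Agent.Helper259.Selmer.Gal

/-! # The Galois group of a number field is generated by its inertia groups -/

set_option autoImplicit false

namespace Pool.Agent.H669R4

open Polynomial NumberField

/-- Minkowski: inertia groups generate the Galois group over `ℚ`. -/
theorem iSup_inertia (L : Type) [Field L] [NumberField L] [IsGalois ℚ L] :
    ⨆ m : MaximalSpectrum (𝓞 L), m.asIdeal.inertia (Gal(L/ℚ)) = ⊤ := by
  set H : Subgroup (Gal(L/ℚ)) := ⨆ m : MaximalSpectrum (𝓞 L), m.asIdeal.inertia (Gal(L/ℚ)) with hH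
  by_contra hne
  let E : IntermediateField ℚ L := FixedPoints.intermediateField H
  have hG : IsGaloisGroup H E L := IsGaloisGroup.subgroup (Gal(L/ℚ)) ℚ L H
  have hfr : Module.finrank ℚ E ≠ 1 := by
    intro h1
    have h2 : Module.finrank E L = Nat.card H := (IsGaloisGroup.card_eq_finrank H E L).symm
    have h3 : Nat.card (Gal(L/ℚ)) = Module.finrank ℚ L :=
      (IsGaloisGroup.card_eq_finrank (Gal(L/ℚ)) ℚ L)
    have h4 := Module.finrank_mul_finrank ℚ E L
    rw [h1, one_mul, h2, ← h3] at h4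
    exact hne (Subgroup.eq_top_of_card_eq H h4)
  obtain ⟨P, hP, hPr⟩ := NumberField.exists_not_isUnramifiedAt_int (K := E) (𝒪 := 𝓞 E) hfr
  apply hPr
  obtain ⟨Q, hQ, hQP⟩ := Ideal.exists_maximal_ideal_liesOver_of_isIntegral (S := 𝓞 L) P
  rw [← Ideal.ramificationIdx_eq_one_iff]
  have hGQ : IsGaloisGroup H (𝓞 E) (𝓞 L) := IsGaloisGroup.of_isFractionRing H (𝓞 E) (𝓞 L) E L
  have e1 : Nat.card (Q.inertia (Gal(L/ℚ))) = Q.ramificationIdx ℤ := by
    rw [Ideal.card_inertia_eq_ramificationIdxIn (Q.under ℤ) Q,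
      Ideal.ramificationIdxIn_eq_ramificationIdx (Q.under ℤ) Q (Gal(L/ℚ))]
  have e2 : Nat.card (Q.inertia H) = Q.ramificationIdx (𝓞 E) := by
    rw [Ideal.card_inertia_eq_ramificationIdxIn P Q,
      Ideal.ramificationIdxIn_eq_ramificationIdx P Q H]
  have e3 : Nat.card (Q.inertia H) = Nat.card (Q.inertia (Gal(L/ℚ))) := by
    have hle : Q.inertia (Gal(L/ℚ)) ≤ H :=
      le_iSup (fun m : MaximalSpectrum (𝓞 L) => m.asIdeal.inertia (Gal(L/ℚ))) ⟨Q, hQ⟩
    have h1 := Nat.card_congr (Subgroup.subgroupOfEquivOfLe hle).toEquiv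
    rw [← h1, AddSubgroup.subgroupOf_inertia]
  have e4 := Ideal.ramificationIdx_tower (R := ℤ) P Q
  have e5 : Q.ramificationIdx (𝓞 E) ≠ 0 := by
    rw [← e2]
    exact Nat.card_pos.ne'
  rw [← e1, ← e3, e2] at e4
  exact (Nat.eq_of_mul_eq_mul_right (Nat.pos_of_ne_zero e5) (by rw [one_mul]; exact e4)).symm

/-- The Selmer polynomial `X ^ n - X - 1` has the full symmetric group as Galois group. -/
theorem selmer_surjective (L : Type) [Field L] [NumberField L] [IsGalois ℚ L] {n : ℕ} (hn2 : 2 ≤ n)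
    (hs : IsSplittingField ℚ L (X ^ n - X - 1 : ℚ[X])) :
    Function.Surjective
      (MulAction.toPermHom (Gal(L/ℚ)) ((Helper259.Selmer.F n).rootSet (𝓞 L))) := by
  classical
  have hF : (Helper259.Selmer.F n).map (algebraMap ℤ L) =
      (X ^ n - X - 1 : ℚ[X]).map (algebraMap ℚ L) := by
    rw [Helper259.Selmer.F_map]; simp
  have hsF : ((Helper259.Selmer.F n).map (algebraMap ℤ L)).Splits := by rw [hF]; exact hs.splits
  have hsI := Helper259.Selmer.splits_int hn2 hsF
  have hcard := Helper259.Selmer.card_rootSet_int hn2 hsF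
  have htr : MulAction.IsPretransitive (Gal(L/ℚ)) ((Helper259.Selmer.F n).rootSet (𝓞 L)) := by
    have hmin : ∀ x : (Helper259.Selmer.F n).rootSet (𝓞 L),
        minpoly ℚ (((x : 𝓞 L) : L)) = X ^ n - X - 1 := by
      intro x
      have h1 : aeval ((x : 𝓞 L) : L) (X ^ n - X - 1 : ℚ[X]) = 0 := by
        have h2 := (mem_rootSet'.mp x.2).2
        have h3 : aeval ((x : 𝓞 L) : L) (Helper259.Selmer.F n) = 0 := by
          have := congrArg (algebraMap (𝓞 L) L) h2
          rwa [map_zero, ← aeval_algebraMap_apply] at this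
        simpa [Helper259.Selmer.F] using h3
      exact (minpoly.eq_of_irreducible_of_monic
        (X_pow_sub_X_sub_one_irreducible_rat (by omega)) h1
        (Helper259.Selmer.monic_aux hn2)).symm
    refine ⟨fun x y => ?_⟩
    have h1 : minpoly ℚ (((y : 𝓞 L) : L)) = minpoly ℚ (((x : 𝓞 L) : L)) := by
      rw [hmin, hmin]
    rw [Normal.minpoly_eq_iff_mem_orbit] at h1
    obtain ⟨g, hg⟩ := h1
    refine ⟨g, ?_⟩
    apply Subtype.ext
    apply FaithfulSMul.algebraMap_injective (𝓞 L) L
    exact hg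
  refine hsI.surjective_toPermHom_of_iSup_inertia_eq_top (fun m => ?_) (iSup_inertia L)
  have hmax := m.isMaximal
  let _ := Ideal.Quotient.field m.asIdeal
  have h1 : ((Helper259.Selmer.F n).map (algebraMap ℤ (𝓞 L ⧸ m.asIdeal))).Splits := by
    have := hsI.map (Ideal.Quotient.mk m.asIdeal)
    rw [Polynomial.map_map] at this
    convert this using 2
    exact RingHom.ext_int _ _
  have h2 := Helper259.Selmer.ncard_field hn2 h1
  have h3 : ((Helper259.Selmer.F n).rootSet (𝓞 L)).ncard = n := by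
    rw [Set.ncard_eq_toFinset_card', Set.toFinset_card, hcard]
  rw [h3]
  exact h2

theorem selmer_card_aux (L : Type) [Field L] [NumberField L] [IsGalois ℚ L] {n : ℕ} (hn2 : 2 ≤ n)
    (hs : IsSplittingField ℚ L (X ^ n - X - 1 : ℚ[X])) : n.factorial ≤ Module.finrank ℚ L := by
  classical
  have h1 := selmer_surjective L hn2 hs
  have hF : (Helper259.Selmer.F n).map (algebraMap ℤ L) =
      (X ^ n - X - 1 : ℚ[X]).map (algebraMap ℚ L) := by
    rw [Helper259.Selmer.F_map]; simp
  have hsF : ((Helper259.Selmer.F n).map (algebraMap ℤ L)).Splits := by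
    rw [hF]; exact hs.splits
  have hcard := Helper259.Selmer.card_rootSet_int hn2 hsF
  have h3 := Nat.card_le_card_of_surjective _ h1
  rw [Nat.card_perm, Nat.card_eq_fintype_card, hcard] at h3
  rwa [IsGalois.card_aut_eq_finrank] at h3

/-- The degree of the splitting field of the Selmer polynomial is `n!`. -/
theorem selmer_card (L : Type) [Field L] [CharZero L] [alg : Algebra ℚ L] [FiniteDimensional ℚ L]
    [IsGalois ℚ L] {n : ℕ} (hn2 : 2 ≤ n)
    (hs : IsSplittingField ℚ L (X ^ n - X - 1 : ℚ[X])) : n.factorial ≤ Module.finrank ℚ L := by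
  have h : alg = DivisionRing.toRatAlgebra := Subsingleton.elim _ _
  subst h
  have : NumberField L := ⟨⟩
  exact selmer_card_aux L hn2 hs

end Pool.Agent.H669R4
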