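import Mathlib
import Pool.Agent.H669R4.Inertia

/-!
# Numbers obtained by root extractions of bounded degree and by radicals
-/

set_option autoImplicit false

namespace Pool.Agent.H669R4

open Polynomial MulAction

/-- the algebraic numbers -/
noncomputable abbrev Om : IntermediateField ℚ ℂ := algebraicClosure ℚ ℂ

noncomputable instance instOm1 : IsAlgClosure ℚ Om := algebraicClosure.isAlgClosure ℚ ℂ
noncomputable instance instOm2 : IsAlgClosed Om := IsAlgClosure.isAlgClosed ℚ
noncomputable instance instOm3 : Normal ℚ Om := IsAlgClosure.normal ℚ Om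
noncomputable instance instOm4 (p : ℚ[X]) : Fact (p.map (algebraMap ℚ Om)).Splits :=
  ⟨IsAlgClosed.splits _⟩

/-- the Selmer polynomial over the rationals -/
noncomputable abbrev sp (n : ℕ) : ℚ[X] := X ^ n - X - 1

/-- the action on the roots -/
noncomputable def rho (n : ℕ) : Gal(Om/ℚ) →* Equiv.Perm ((sp n).rootSet Om) :=
  (Gal.galActionHom (sp n) Om).comp (Gal.restrict (sp n) Om)

lemma rho_apply (n : ℕ) (g : Gal(Om/ℚ)) (x : (sp n).rootSet Om) :
    ((rho n g x : (sp n).rootSet Om) : Om) = g (x : Om) :=
  Gal.galActionHom_restrict (sp n) Om g x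

lemma sp_sep {n : ℕ} (hn : 2 ≤ n) : (sp n).Separable :=
  (X_pow_sub_X_sub_one_irreducible_rat (by omega)).separable

lemma card_roots {n : ℕ} (hn : 2 ≤ n) : Fintype.card ((sp n).rootSet Om) = n := by
  rw [card_rootSet_eq_natDegree (sp_sep hn) (IsAlgClosed.splits _),
    Helper259.Selmer.natDegree_aux hn]

theorem rho_surjective {n : ℕ} (hn : 2 ≤ n) : Function.Surjective (rho n) := by
  classical
  have : CharZero (sp n).SplittingField :=
    charZero_of_injective_algebraMap (algebraMap ℚ _).injective
  have hsf : IsSplittingField ℚ (SplittingField (sp n)) (sp n) :=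
    IsSplittingField.splittingField (sp n)
  have h0 : IsGalois ℚ (SplittingField (sp n)) := IsGalois.of_separable_splitting_field (sp_sep hn)
  have h1 := selmer_card (SplittingField (sp n)) hn hsf
  have h2 : n.factorial ≤ Nat.card (sp n).Gal := by
    rwa [← IsGalois.card_aut_eq_finrank] at h1
  have h4 : Function.Bijective (Gal.galActionHom (sp n) Om) := by
    apply Function.Injective.bijective_of_nat_card_le (Gal.galActionHom_injective (sp n) Om)
    rw [Nat.card_perm, Nat.card_eq_fintype_card, card_roots hn]
    exact h2
  exact h4.2.comp (Gal.restrict_surjective (sp n) Om)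

end Pool.Agent.H669R4
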