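import Mathlib
import Pool.Agent.H669R4.Closure
import Pool.Agent.H669R4.Alt

/-!
# Good numbers
-/

set_option autoImplicit false

namespace Pool.Agent.H669R4

open Polynomial MulAction

open scoped Classical in
/-- the image of `U` on the roots contains the alternating group -/
def Big (n : ℕ) (U : Subgroup Gal(Om/ℚ)) : Prop :=
  alternatingGroup ((sp n).rootSet Om) ≤ U.map (rho n)

lemma Big.mono {n : ℕ} {U V : Subgroup Gal(Om/ℚ)} (h : U ≤ V) (hU : Big n U) : Big n V :=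
  le_trans hU (Subgroup.map_mono h)

lemma big_top {n : ℕ} (hn : 2 ≤ n) : Big n ⊤ := by
  unfold Big
  rw [← MonoidHom.range_eq_map, MonoidHom.range_eq_top.2 (rho_surjective hn)]
  exact le_top

/-- passing to the stabilizer of `z` does not lose the alternating group -/
def Good (n : ℕ) (z : Om) : Prop :=
  ∀ U : Subgroup Gal(Om/ℚ), Big n U → Big n (U ⊓ stabilizer Gal(Om/ℚ) z)

variable {n : ℕ}

lemma good_of_fixed {z : Om} (h : ∀ g : Gal(Om/ℚ), g • z = z) : Good n z := fun _ hU =>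
  hU.mono (le_inf le_rfl fun g _ => h g)

lemma good_rat (q : ℚ) : Good n (algebraMap ℚ Om q) := good_of_fixed fun g => g.commutes q

lemma good_add {a b : Om} (ha : Good n a) (hb : Good n b) : Good n (a + b) := fun U hU => by
  refine (hb _ (ha U hU)).mono (le_inf (inf_le_left.trans inf_le_left) fun g hg => ?_)
  obtain ⟨⟨_, h1⟩, h2⟩ := hg
  have h1' : g • a = a := h1
  have h2' : g • b = b := h2
  show g • (a + b) = a + b
  rw [smul_add, h1', h2']

lemma good_mul {a b : Om} (ha : Good n a) (hb : Good n b) : Good n (a * b) := fun U hU => by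
  refine (hb _ (ha U hU)).mono (le_inf (inf_le_left.trans inf_le_left) fun g hg => ?_)
  obtain ⟨⟨_, h1⟩, h2⟩ := hg
  have h1' : g • a = a := h1
  have h2' : g • b = b := h2
  show g • (a * b) = a * b
  rw [smul_mul', h1', h2']

lemma good_inv {a : Om} (ha : Good n a) : Good n a⁻¹ := fun U hU => by
  refine (ha U hU).mono (le_inf inf_le_left fun g hg => ?_)
  obtain ⟨_, h1⟩ := hg
  have h1' : g • a = a := h1
  show g • a⁻¹ = a⁻¹
  rw [smul_inv'', h1']

lemma exists_fix (c : ℕ → Om) (m : ℕ) (hc : ∀ i, Good n (c i)) (U : Subgroup Gal(Om/ℚ))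
    (hU : Big n U) : ∃ V ≤ U, Big n V ∧ ∀ i < m, ∀ v ∈ V, v • c i = c i := by
  induction m with
  | zero => exact ⟨U, le_rfl, hU, fun i hi => absurd hi (Nat.not_lt_zero _)⟩
  | succ m ih =>
    obtain ⟨V, h1, h2, h3⟩ := ih
    refine ⟨V ⊓ stabilizer _ (c m), inf_le_left.trans h1, hc m V h2, fun i hi v hv => ?_⟩
    rcases Nat.lt_succ_iff_lt_or_eq.1 hi with h | h
    · exact h3 i h v hv.1
    · subst h
      exact hv.2

lemma natCard_roots (hn : 5 ≤ n) : Nat.card ((sp n).rootSet Om) = n := by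
  rw [Nat.card_eq_fintype_card, card_roots (by omega)]

theorem good_root (hn : 5 ≤ n) (g : Om[X]) (hg : g ≠ 0) (hd : g.natDegree < n)
    (hc : ∀ i, Good n (g.coeff i)) (z : Om) (hz : g.IsRoot z) : Good n z := by
  classical
  intro U hU
  obtain ⟨V, h1, h2, h3⟩ := exists_fix g.coeff (g.natDegree + 1) hc U hU
  refine Big.mono (inf_le_inf_right _ h1) ?_
  have h := alt_le_of_orbit (rho n) (by rw [natCard_roots hn]; exact hn) V z g.roots.toFinset
    (by
      rw [natCard_roots hn]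
      exact ((Multiset.toFinset_card_le _).trans (card_roots' g)).trans_lt hd)
    (fun v hv => by
      have hm : g.map (v : Om →+* Om) = g := by
        ext i : 1
        rw [coeff_map]
        by_cases hi : i < g.natDegree + 1
        · exact h3 i hi v hv
        · rw [coeff_eq_zero_of_natDegree_lt (by omega), map_zero]
      have h4 : (g.map (v : Om →+* Om)).IsRoot ((v : Om →+* Om) z) := hz.map
      rw [hm] at h4
      rw [Multiset.mem_toFinset, mem_roots hg]
      exact h4)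
    (by unfold Big at h2; convert h2)
  unfold Big
  convert h

lemma comm_mem {G Ω : Type} [Group G] [MulAction G Ω] (U : Subgroup G) (x : Ω)
    (h : ∀ u ∈ U, ∀ v ∈ U, u • v • x = v • u • x) :
    ∀ u ∈ U, ∀ v ∈ U, u * v * u⁻¹ * v⁻¹ ∈ U ⊓ stabilizer G x := by
  intro u hu v hv
  refine Subgroup.mem_inf.2 ⟨U.mul_mem (U.mul_mem (U.mul_mem hu hv) (U.inv_mem hu))
    (U.inv_mem hv), ?_⟩
  rw [mem_stabilizer_iff, mul_smul, mul_smul, mul_smul,
    h u⁻¹ (U.inv_mem hu) v⁻¹ (U.inv_mem hv), smul_inv_smul, smul_inv_smul]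

lemma big_comm (hn : 5 ≤ n) (U : Subgroup Gal(Om/ℚ)) (x : Om)
    (h : ∀ u ∈ U, ∀ v ∈ U, u • v • x = v • u • x) (hU : Big n U) :
    Big n (U ⊓ stabilizer Gal(Om/ℚ) x) := by
  classical
  have := alt_le_of_comm (rho n) (by rw [natCard_roots hn]; exact hn) U
    (U ⊓ stabilizer Gal(Om/ℚ) x) (comm_mem U x h) (by unfold Big at hU; convert hU)
  unfold Big
  convert this

theorem good_rad (hn : 5 ≤ n) {k : ℕ} (hk : 0 < k) (z : Om) (h : Good n (z ^ k)) : Good n z := by
  by_cases hz : z = 0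
  · exact good_of_fixed fun g => by rw [hz, smul_zero]
  have : NeZero k := ⟨hk.ne'⟩
  obtain ⟨ζ, hζ⟩ : ∃ ζ : Om, IsPrimitiveRoot ζ k := by
    have h0 := Complex.isPrimitiveRoot_exp k hk.ne'
    have h1 : IsIntegral ℚ (Complex.exp (2 * Real.pi * Complex.I / k)) :=
      (h0.isIntegral hk).tower_top
    refine ⟨⟨_, mem_algebraicClosure_iff.2 h1.isAlgebraic⟩, ?_⟩
    exact IsPrimitiveRoot.of_map_of_injective (f := algebraMap Om ℂ) h0
      (algebraMap Om ℂ).injective
  intro U hU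
  have h1 := h U hU
  set U1 := U ⊓ stabilizer Gal(Om/ℚ) (z ^ k) with hU1
  have hroot : ∀ u : Gal(Om/ℚ), ∀ ξ : Om, ξ ^ k = 1 → (u • ξ) ^ k = 1 := fun u ξ hξ => by
    rw [← smul_pow', hξ, smul_one]
  have h2 : Big n (U1 ⊓ stabilizer Gal(Om/ℚ) ζ) := by
    apply big_comm hn U1 ζ _ h1
    intro u _ v _
    obtain ⟨i, _, hi⟩ := hζ.eq_pow_of_pow_eq_one (hroot u ζ hζ.pow_eq_one)
    obtain ⟨j, _, hj⟩ := hζ.eq_pow_of_pow_eq_one (hroot v ζ hζ.pow_eq_one)
    rw [← hi, ← hj, smul_pow', smul_pow', ← hi, ← hj, ← pow_mul, ← pow_mul, mul_comm]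
  set U2 := U1 ⊓ stabilizer Gal(Om/ℚ) ζ with hU2
  have hfix : ∀ u ∈ U2, ∀ ξ : Om, ξ ^ k = 1 → u • ξ = ξ := by
    intro u hu ξ hξ
    obtain ⟨i, _, hi⟩ := hζ.eq_pow_of_pow_eq_one hξ
    have h3 : u • ζ = ζ := hu.2
    rw [← hi, smul_pow', h3]
  have h3 : Big n (U2 ⊓ stabilizer Gal(Om/ℚ) z) := by
    apply big_comm hn U2 z _ h2
    have key : ∀ u ∈ U2, ∃ ξ : Om, ξ ^ k = 1 ∧ u • z = ξ * z := by
      intro u hu
      refine ⟨(u • z) / z, ?_, by rw [div_mul_cancel₀ _ hz]⟩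
      have h4 : u • (z ^ k) = z ^ k := hu.1.2
      rw [div_pow, ← smul_pow', h4, div_self (pow_ne_zero _ hz)]
    intro u hu v hv
    obtain ⟨ξ, hξ, hξz⟩ := key u hu
    obtain ⟨η, hη, hηz⟩ := key v hv
    rw [hξz, hηz, smul_mul', smul_mul', hξz, hηz, hfix u hu η hη, hfix v hv ξ hξ]
    ring
  exact h3.mono (inf_le_inf_right _ (inf_le_left.trans inf_le_left))

end Pool.Agent.H669R4
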