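import Mathlib
import Pool.Agent.H669R4.Good

/-!
# Numbers obtained from the rational numbers by root extractions

`Reach d z` : the complex number `z` can be obtained from the rational numbers by finitely many
additions, multiplications, inversions, extractions of radicals of any order, and extractions of
roots of nonzero polynomials of degree less than `d` (with coefficients obtained before).
-/

set_option autoImplicit false

namespace Pool.Agent.H669R4

open Polynomial MulAction

/-- The complex numbers obtained from the rational numbers by field operations, radicals `z` with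
`z ^ k = a` of any order `k`, and roots of nonzero polynomials of degree less than `d`. -/
inductive Reach (d : ℕ) : ℂ → Prop
  | rat (q : ℚ) : Reach d (q : ℂ)
  | add (a b : ℂ) : Reach d a → Reach d b → Reach d (a + b)
  | mul (a b : ℂ) : Reach d a → Reach d b → Reach d (a * b)
  | inv (a : ℂ) : Reach d a → Reach d a⁻¹
  | root (g : ℂ[X]) (z : ℂ) : g ≠ 0 → g.natDegree < d → (∀ i, Reach d (g.coeff i)) →
      g.IsRoot z → Reach d z
  | rad (k : ℕ) (z : ℂ) : 0 < k → Reach d (z ^ k) → Reach d z

theorem Reach.mono {d e : ℕ} (h : d ≤ e) {z : ℂ} (hz : Reach d z) : Reach e z := by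
  induction hz with
  | rat q => exact .rat q
  | add a b _ _ h1 h2 => exact .add a b h1 h2
  | mul a b _ _ h1 h2 => exact .mul a b h1 h2
  | inv a _ h1 => exact .inv a h1
  | root g z h1 h2 _ h4 h5 => exact .root g z h1 (h2.trans_le h) h5 h4
  | rad k z h1 _ h3 => exact .rad k z h1 h3

lemma root_lift (g : Om[X]) (hg : g ≠ 0) (z : ℂ) (hz : (g.map (algebraMap Om ℂ)).IsRoot z) :
    ∃ z' : Om, (z' : ℂ) = z ∧ g.IsRoot z' := by
  have hs : g.Splits := IsAlgClosed.splits g
  have h1 := hs.roots_map_of_injective (algebraMap Om ℂ).injective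
  have h2 : z ∈ (g.map (algebraMap Om ℂ)).roots :=
    (mem_roots (Polynomial.map_ne_zero hg)).2 hz
  rw [h1, Multiset.mem_map] at h2
  obtain ⟨z', h3, h4⟩ := h2
  exact ⟨z', h4, (mem_roots hg).1 h3⟩

theorem Reach.good {n : ℕ} (hn : 5 ≤ n) {z : ℂ} (hz : Reach n z) :
    ∃ z' : Om, (z' : ℂ) = z ∧ Good n z' := by
  induction hz with
  | rat q => exact ⟨algebraMap ℚ Om q, by simp, good_rat q⟩
  | add a b _ _ h1 h2 =>
    obtain ⟨a', rfl, ha⟩ := h1
    obtain ⟨b', rfl, hb⟩ := h2
    exact ⟨a' + b', by simp, good_add ha hb⟩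
  | mul a b _ _ h1 h2 =>
    obtain ⟨a', rfl, ha⟩ := h1
    obtain ⟨b', rfl, hb⟩ := h2
    exact ⟨a' * b', by simp, good_mul ha hb⟩
  | inv a _ h1 =>
    obtain ⟨a', rfl, ha⟩ := h1
    exact ⟨a'⁻¹, by simp, good_inv ha⟩
  | root g z h1 h2 _ h4 h5 =>
    choose c hc hc' using h5
    let g' : Om[X] := ∑ i ∈ Finset.range (g.natDegree + 1), C (c i) * X ^ i
    have hco : ∀ i, g'.coeff i = if i < g.natDegree + 1 then c i else 0 := by
      intro i
      simp only [g', finset_sum_coeff, coeff_C_mul_X_pow]
      rw [Finset.sum_ite_eq]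
      simp only [Finset.mem_range]
    have hmap : g'.map (algebraMap Om ℂ) = g := by
      ext i
      rw [coeff_map, hco]
      split_ifs with hi
      · exact hc i
      · rw [map_zero, coeff_eq_zero_of_natDegree_lt (by omega)]
    have hg' : g' ≠ 0 := by
      intro h
      apply h1
      rw [← hmap, h, Polynomial.map_zero]
    have hdeg : g'.natDegree < n := by
      have := natDegree_map (p := g') (algebraMap Om ℂ)
      rw [hmap] at this
      omega
    obtain ⟨z', hz1, hz2⟩ := root_lift g' hg' z (by rw [hmap]; exact h4)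
    refine ⟨z', hz1, good_root hn g' hg' hdeg (fun i => ?_) z' hz2⟩
    rw [hco]
    split_ifs
    · exact hc' i
    · have := good_rat (n := n) 0
      rwa [map_zero] at this
  | rad k z h1 _ h3 =>
    obtain ⟨w, hw, hgw⟩ := h3
    have hmap : ((X ^ k - C w : Om[X]).map (algebraMap Om ℂ)) = X ^ k - C (z ^ k) := by
      rw [Polynomial.map_sub, Polynomial.map_pow, map_X, map_C]
      congr 2
    obtain ⟨z', hz1, hz2⟩ := root_lift (X ^ k - C w) (X_pow_sub_C_ne_zero h1 w) z
      (by rw [hmap]; simp [IsRoot.def])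
    refine ⟨z', hz1, good_rad hn h1 z' ?_⟩
    have : z' ^ k = w := by
      have h4 : z' ^ k - w = 0 := by simpa [IsRoot.def] using hz2
      exact sub_eq_zero.1 h4
    rwa [this]

/-- **Main theorem.** The roots of `X ^ n - X - 1` cannot be obtained from the rational numbers by
field operations, radicals of any order and roots of polynomials of degree less than `n`. -/
theorem not_reach {n : ℕ} (hn : 5 ≤ n) {z : ℂ} (hz : z ^ n = z + 1) : ¬ Reach n z := by
  classical
  intro h
  obtain ⟨z', rfl, hg⟩ := h.good hn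
  have hz' : z' ^ n = z' + 1 := by
    apply (algebraMap Om ℂ).injective
    simpa using hz
  have hmem : z' ∈ (sp n).rootSet Om := by
    rw [mem_rootSet']
    refine ⟨?_, ?_⟩
    · rw [Ne, Polynomial.map_eq_zero]
      exact (X_pow_sub_X_sub_one_irreducible_rat (by omega)).ne_zero
    · simp [hz']
  have hb := hg ⊤ (big_top (by omega))
  unfold Big at hb
  have h5 := natCard_roots hn
  rw [Nat.card_eq_fintype_card] at h5
  obtain ⟨x, hx⟩ : ∃ x : (sp n).rootSet Om, x ≠ ⟨z', hmem⟩ := by
    have : Nontrivial ((sp n).rootSet Om) := by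
      rw [← Fintype.one_lt_card_iff_nontrivial]; omega
    exact exists_ne _
  obtain ⟨y, hy1, hy2⟩ : ∃ y : (sp n).rootSet Om, y ≠ ⟨z', hmem⟩ ∧ y ≠ x := by
    by_contra hcon
    push Not at hcon
    have : Fintype.card ((sp n).rootSet Om) ≤ ({⟨z', hmem⟩, x} : Finset ((sp n).rootSet Om)).card := by
      rw [← Finset.card_univ]
      apply Finset.card_le_card
      intro y _
      by_cases h : y = ⟨z', hmem⟩
      · simp [h]
      · simp [hcon y h]
    have h6 := Finset.card_le_two (a := (⟨z', hmem⟩ : (sp n).rootSet Om)) (b := x)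
    omega
  let π : Equiv.Perm ((sp n).rootSet Om) := Equiv.swap ⟨z', hmem⟩ x * Equiv.swap ⟨z', hmem⟩ y
  have hπ : π ∈ alternatingGroup ((sp n).rootSet Om) := by
    rw [Equiv.Perm.mem_alternatingGroup]
    simp only [π, map_mul, Equiv.Perm.sign_swap hx.symm, Equiv.Perm.sign_swap hy1.symm]
    norm_num
  obtain ⟨g, hg1, hg2⟩ := hb (by convert hπ)
  have h7 : g z' = z' := hg1.2
  have h8 := rho_apply n g ⟨z', hmem⟩
  rw [hg2] at h8
  have h9 : π ⟨z', hmem⟩ = y := by
    simp only [π, Equiv.Perm.mul_apply, Equiv.swap_apply_left]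
    exact Equiv.swap_apply_of_ne_of_ne hy1 hy2
  rw [h9] at h8
  apply hy1
  apply Subtype.ext
  rw [h8]
  exact h7

end Pool.Agent.H669R4
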