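import Pool.Agent.H669R4.Reach
import Pool.Agent.ER.Defs

/-!
# Solutions of sentences of the existential theory of the reals need roots of exponential degree
-/

set_option autoImplicit false

namespace Pool.Agent.H669R4

open Pool.Agent.NPC.ER

/-- The sentence `x₁ = x₀ x₀ ∧ x₂ = x₁ x₁ ∧ ⋯ ∧ xₙ = xₙ₋₁ xₙ₋₁ ∧ xₙ = x₀ + 1`. -/
def sel (n : ℕ) : Fm :=
  (List.range n).foldr
    (fun i ψ => Fm.and (Fm.eq (Tm.var (i + 1)) (Tm.mul (Tm.var i) (Tm.var i))) ψ)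
    (Fm.eq (Tm.var n) (Tm.add (Tm.var 0) Tm.one))

lemma foldr_toks (l : List ℕ) (ψ : Fm) :
    (l.foldr (fun i ψ => Fm.and (Fm.eq (Tm.var (i + 1)) (Tm.mul (Tm.var i) (Tm.var i))) ψ) ψ).toks.length
      = 6 * l.length + ψ.toks.length := by
  induction l with
  | nil => simp
  | cons i l ih =>
    rw [List.foldr_cons, Fm.toks, List.length_append, List.length_append, ih]
    simp [Fm.toks, Tm.toks]
    ring

theorem toks_sel (n : ℕ) : (sel n).toks.length = 6 * n + 5 := by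
  unfold sel
  rw [foldr_toks, List.length_range]
  simp [Fm.toks, Tm.toks]

lemma foldr_holds (x : ℕ → ℝ) (l : List ℕ) (ψ : Fm) :
    (l.foldr (fun i ψ => Fm.and (Fm.eq (Tm.var (i + 1)) (Tm.mul (Tm.var i) (Tm.var i))) ψ) ψ).Holds x
      ↔ (∀ i ∈ l, x (i + 1) = x i * x i) ∧ ψ.Holds x := by
  induction l with
  | nil => simp
  | cons i l ih =>
    rw [List.foldr_cons, Fm.Holds, ih]
    simp [Fm.Holds, Tm.eval, and_assoc]

theorem holds_sel (n : ℕ) (x : ℕ → ℝ) :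
    (sel n).Holds x ↔ (∀ i < n, x (i + 1) = x i * x i) ∧ x n = x 0 + 1 := by
  unfold sel
  rw [foldr_holds]
  simp [Fm.Holds, Tm.eval]

lemma pow_of {n : ℕ} {x : ℕ → ℝ} (h : ∀ i < n, x (i + 1) = x i * x i) :
    ∀ i ≤ n, x i = x 0 ^ (2 ^ i) := by
  intro i
  induction i with
  | zero => intro _; simp
  | succ i ih =>
    intro hi
    rw [h i (by omega), ih (by omega), ← pow_add, pow_succ, mul_two]

theorem etr_sel (n : ℕ) (hn : 0 < n) : ETR (sel n) := by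
  -- a root of `x ^ (2 ^ n) = x + 1` in `[1, 2]`
  obtain ⟨r, -, hr⟩ : ∃ r ∈ Set.Icc (1 : ℝ) 2, r ^ (2 ^ n) - r - 1 = 0 := by
    have hc : ContinuousOn (fun r : ℝ => r ^ (2 ^ n) - r - 1) (Set.Icc 1 2) := by fun_prop
    apply intermediate_value_Icc (by norm_num) hc
    constructor
    · norm_num
    · have h1 : (2 : ℝ) ^ 2 ≤ 2 ^ (2 ^ n) := by
        apply pow_le_pow_right₀ (by norm_num)
        calc 2 = 2 ^ 1 := rfl
          _ ≤ 2 ^ n := Nat.pow_le_pow_right (by norm_num) hn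
      show (0 : ℝ) ≤ 2 ^ (2 ^ n) - 2 - 1
      linarith
  refine ⟨fun i => r ^ (2 ^ i), (holds_sel n _).2 ⟨fun i _ => ?_, ?_⟩⟩
  · show r ^ (2 ^ (i + 1)) = r ^ (2 ^ i) * r ^ (2 ^ i)
    rw [← pow_add, pow_succ, mul_two]
  · show r ^ (2 ^ n) = r ^ (2 ^ 0) + 1
    rw [pow_zero, pow_one]
    linarith

/-- no coordinate of a solution can be reached -/
theorem not_reach_sel {n : ℕ} (hn : 3 ≤ n) {x : ℕ → ℝ} (hx : (sel n).Holds x) :
    ∀ i ≤ n, ¬ Reach (2 ^ n) (x i : ℂ) := by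
  intro i hi h
  rw [holds_sel] at hx
  have h1 := pow_of hx.1
  have h2 : (5 : ℕ) ≤ 2 ^ n := by
    calc 5 ≤ 2 ^ 3 := by norm_num
      _ ≤ 2 ^ n := Nat.pow_le_pow_right (by norm_num) hn
  have h3 : Reach (2 ^ n) (x 0 : ℂ) := by
    apply Reach.rad (2 ^ i) _ (by positivity)
    have h4 := h1 i hi
    rw [h4] at h
    push_cast at h
    exact h
  refine not_reach h2 (z := (x 0 : ℂ)) ?_ h3
  have h4 := h1 n le_rfl
  rw [hx.2] at h4
  rw [← Complex.ofReal_pow, ← h4]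
  push_cast
  rfl

/-- a bound for the degrees of the roots used in the solutions is exponential -/
theorem degree_bound (D : ℕ → ℕ) (hD : ∀ φ : Fm, ETR φ → ∃ x : ℕ → ℝ, φ.Holds x ∧
    ∀ i, Reach (D φ.toks.length) (x i : ℂ)) (n : ℕ) (hn : 3 ≤ n) : 2 ^ n < D (6 * n + 5) := by
  by_contra hcon
  push Not at hcon
  obtain ⟨x, hx, hr⟩ := hD (sel n) (etr_sel n (by omega))
  rw [toks_sel] at hr
  exact not_reach_sel hn hx 0 (Nat.zero_le _) ((hr 0).mono hcon)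

end Pool.Agent.H669R4
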